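import Mathlib
import Pool.Agent.H16.LStable

set_option autoImplicit false

namespace Pool.Agent.Results.MP_718be6_lc.Counter

open Pool.Agent.H16.LStable

/-- An internal-variable-free normal logic program without an L-stable model. -/
theorem result :
    ∃ (σ : Sig) (P : List (Rule σ)), UsesAll P ∧ IVF P ∧ ∀ I : Interp σ, ¬ IsLStable P I :=
  ⟨S, P0, usesAll, ivf, noL⟩

end Pool.Agent.Results.MP_718be6_lc.Counter
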